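import Pool.Agent.H71.ASF.Stmts

/-!
# Project ASF, modules WP1 and WP2
-/

namespace ASF

universe u

set_option linter.unusedSectionVars false

namespace WP

variable {A : Type u} [NonUnitalNonAssocRing A] [Alt A] [NT A] {b1 b2 b3 : A}

theorem T_eq (hT : T0 b1 b2 b3) (x y z : A) :
    DS (dl b1 b2 x) (cm b3 y) z + DS (dl b2 b3 x) (cm b1 y) z + DS (dl b3 b1 x) (cm b2 y) z
      = - (3 • XX b1 b2 b3 x y z) := by
  have h : cm (nu b1 b2 b3 x y) z = 0 := by rw [hT.z, cm_zero1]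
  simp only [nu, cm_add1] at h
  simp only [DS, XX, smul_add]
  linear_combination (norm := abel) h

theorem v2 (hn : N3 b1 b2 b3) (y : A) : cm b1 (dl b2 b3 y) = vv b1 b2 b3 y :=
  vv_cyc hn.h12 hn.h21 hn.h13 hn.h31 hn.h23 hn.h32 y

theorem v3 (hn : N3 b1 b2 b3) (y : A) : cm b2 (dl b3 b1 y) = vv b1 b2 b3 y := by
  have e : vv b3 b1 b2 y = vv b2 b3 b1 y :=
    vv_cyc hn.h23 hn.h32 hn.h21 hn.h12 hn.h31 hn.h13 y
  exact e.trans (v2 hn y)

theorem jac (b D x v : A) (hv : cm b D = v) :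
    cm b (cm D x) = cm v x + cm D (cm b x) - 6 • asc b D x := by
  have j := jacobi b D x
  have e1 : cm (cm D x) b = - cm b (cm D x) := cm_swap _ _
  have e2 : cm (cm x b) D = cm D (cm b x) := by
    rw [cm_swap D (cm x b), cm_swap b x, cm_neg2, neg_neg]
  rw [hv, e1, e2] at j
  linear_combination (norm := abel) -j

end WP

open WP in
theorem wp1 (h1 : KBEStmt.{u}) (h2 : KG3Stmt.{u}) (h3 : KQ0Stmt.{u}) : WP1Stmt.{u} := by
  intro A _ _ _ b1 b2 b3 hT x y z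
  have hn := hT.n
  have v1 : cm b3 (dl b1 b2 y) = vv b1 b2 b3 y := rfl
  have v2 := WP.v2 hn y
  have v3 := WP.v3 hn y
  have hG := h2 A b1 b2 b3 hn x y z
  have t1 := T_eq hT x y z
  have t2 := T_eq hT y x z
  have hQ := h3 A b1 b2 b3 hn x y z
  rw [hT.z, cm_zero1] at hQ
  rw [t1, t2] at hG
  have h4 : DS x (vv b1 b2 b3 y) z = XX b1 b2 b3 x y z := by
    apply e3
    linear_combination (norm := abel) hG - (6 : ℤ) • hQ
  have c1 := DS_cm2 b3 (dl b1 b2 y) x z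
  have c2 := DS_cm2 b1 (dl b2 b3 y) x z
  have c3 := DS_cm2 b2 (dl b3 b1 y) x z
  rw [v1, DS_swap (dl b1 b2 y) (cm b3 x) z, DS_swap x (vv b1 b2 b3 y) z, h4] at c1
  rw [v2, DS_swap (dl b2 b3 y) (cm b1 x) z, DS_swap x (vv b1 b2 b3 y) z, h4] at c2
  rw [v3, DS_swap (dl b3 b1 y) (cm b2 x) z, DS_swap x (vv b1 b2 b3 y) z, h4] at c3
  have h6 : DS b3 (cm (dl b1 b2 y) x) z + DS b1 (cm (dl b2 b3 y) x) z
      + DS b2 (cm (dl b3 b1 y) x) z = 0 := by
    linear_combination (norm := abel) c1 + c2 + c3 + t2 - (3 : ℤ) • hQ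
  have hBx := h1 A b1 b2 b3 hn y x
  have j1 := jac b3 (dl b1 b2 y) x _ v1
  have j2 := jac b1 (dl b2 b3 y) x _ v2
  have j3 := jac b2 (dl b3 b1 y) x _ v3
  have hnu := hT.z y x
  have e1 : cm (vv b1 b2 b3 y) x = - cm x (vv b1 b2 b3 y) := cm_swap _ _
  have h9 : cm b3 (cm (dl b1 b2 y) x) + cm b1 (cm (dl b2 b3 y) x) + cm b2 (cm (dl b3 b1 y) x)
      = 3 • cm x (vv b1 b2 b3 y) := by
    simp only [nu] at hnu
    rw [j1, j2, j3]
    linear_combination (norm := abel) hnu - (6 : ℤ) • hBx - (3 : ℤ) • e1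
  have h10 : cm (cm b3 (cm (dl b1 b2 y) x)) z + cm (cm b1 (cm (dl b2 b3 y) x)) z
      + cm (cm b2 (cm (dl b3 b1 y) x)) z = 3 • cm (cm x (vv b1 b2 b3 y)) z := by
    rw [← cm_add1, ← cm_add1, h9, cm_nsmul1]
  simp only [DS] at h6
  apply e3
  simp only [smul_add]
  linear_combination (norm := abel) h10 - h6

open WP in
theorem wp2 (h1 : KBEStmt.{u}) (_h2 : KG3Stmt.{u}) (_h3 : KQ0Stmt.{u}) (h4 : WR7Stmt.{u})
    (h5 : WP1Stmt.{u}) : WP2Stmt.{u} := by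
  intro A _ _ _ b1 b2 b3 hT x y z
  have hn := hT.n
  have hP := h5 A b1 b2 b3 hT x y z
  have hB := h1 A b1 b2 b3 hn y z
  have key : ∀ b D : A, asc b (cm D x) z
      = cm D (asc b x z) - cm x (asc b D z) - 2 • asc D (cm b z) x := by
    intro b D
    have e := asc_cm1 D x z b
    rw [asc_cyc b (cm D x) z, asc_cyc b x z, asc_cyc b D z] at e
    have e1 : asc (cm z b) D x = asc D (cm b z) x := by
      rw [cm_swap b z, asc_neg1, asc_s12 D (cm b z) x, neg_neg]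
    rw [e1] at e
    exact e
  have k1 := key b3 (dl b1 b2 y)
  have k2 := key b1 (dl b2 b3 y)
  have k3 := key b2 (dl b3 b1 y)
  have hB2 : cm x (asc b3 (dl b1 b2 y) z) + cm x (asc b1 (dl b2 b3 y) z)
      + cm x (asc b2 (dl b3 b1 y) z) = cm x (cm (vv b1 b2 b3 y) z) := by
    rw [← cm_add2, ← cm_add2, hB]
  have r1 := (h4 A b1 b2 b3 hT x y z).2
  have r2 := (h4 A b1 b2 b3 hT z y x).2
  have r3 := (h4 A b1 b2 b3 hT y z x).1
  have e2 : cm x (cm (vv b1 b2 b3 y) z) = cm (cm z (vv b1 b2 b3 y)) x := by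
    rw [cm_swap z (vv b1 b2 b3 y), cm_neg2, cm_swap (cm z (vv b1 b2 b3 y)) x, neg_neg]
  have e3' : asc z (vv b1 b2 b3 y) x = - asc x (vv b1 b2 b3 y) z := asc_s13 _ _ _
  rw [k1, k2, k3] at hP
  rw [e3'] at r2
  rw [e2] at hB2
  simp only [ww, XX] at *
  linear_combination (norm := abel) hP + hB2 + r1 + r2 + r3

end ASF
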